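import Pool.Agent.W788.NW.Stm

/-!
# Project NW, part NR: a site which is never read is resampled
-/

set_option autoImplicit false

namespace Pool.Agent.W880.NW.NR

open Finset Pool.Agent.W788.NV Pool.Agent.W788.NW

section General

variable {S ι : Type} [Fintype S] [DecidableEq S] [Fintype ι] (h : MK) (r : ι → ℝ) (m : ι → S → S)

include h

lemma expand (F : S → ℝ) (x : S) (t : ℝ) :
    sg r m t F x = ∑ y, F y * sg r m t (fun z => if z = y then 1 else 0) x := by
  rw [← h.lin]
  congr 1
  funext y
  simp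

lemma comb (F H : S → ℝ) (a : ℝ) (x : S) (t : ℝ) :
    sg r m t (fun y => F y - a * H y) x = sg r m t F x - a * sg r m t H x := by
  have h1 := h.lin S ι Bool r m (fun b => if b then 1 else -a) (fun b => if b then F else H) x t
  simp only [Fintype.sum_bool, if_true, one_mul, Bool.false_eq_true, if_false] at h1
  have h2 : (fun y => F y - a * H y) = fun y => F y + -a * H y := by
    funext y
    ring
  rw [h2, h1]
  ring

lemma nonneg (hr : ∀ e, 0 ≤ r e) (F : S → ℝ) (x : S) (t : ℝ) (ht : 0 ≤ t) (hF : ∀ y, 0 ≤ F y) :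
    0 ≤ sg r m t F x := by
  have h1 := h.mono S ι r m (fun _ => 0) F x t hr ht hF
  rwa [h.cst] at h1

/-- derivative when the function also depends on the time -/
lemma dsg (F : ℝ → S → ℝ) (F' : S → ℝ) (x : S) (s : ℝ)
    (hF : ∀ y, HasDerivAt (fun s => F s y) (F' y) s) :
    HasDerivAt (fun s => sg r m s (F s) x)
      (sg r m s (fun y => gf r m (F s) y + F' y) x) s := by
  have h1 : (fun s => sg r m s (F s) x) = fun s => ∑ y, F s y *
      sg r m s (fun z => if z = y then 1 else 0) x := by
    funext s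
    exact expand h r m (F s) x s
  rw [h1]
  have h2 : HasDerivAt (fun s => ∑ y, F s y * sg r m s (fun z => if z = y then 1 else 0) x)
      (∑ y, (F' y * sg r m s (fun z => if z = y then 1 else 0) x +
        F s y * sg r m s (gf r m (fun z => if z = y then 1 else 0)) x)) s := by
    refine HasDerivAt.fun_sum fun y _ => ?_
    exact (hF y).mul (h.deriv S ι r m _ x s)
  convert h2 using 1
  rw [sum_add_distrib, ← expand h r m F' x s]
  have h3 : ∑ y, F s y * sg r m s (gf r m (fun z => if z = y then 1 else 0)) x =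
      sg r m s (gf r m (F s)) x := by
    rw [← h.lin]
    congr 1
    funext z
    unfold gf
    simp only [mul_sum]
    rw [sum_comm]
    refine sum_congr rfl fun e _ => ?_
    have h4 : ∀ y, F s y * (r e * ((if m e z = y then 1 else 0) - (if z = y then 1 else 0))) =
        r e * ((if m e z = y then F s y else 0) - (if z = y then F s y else 0)) := by
      intro y
      split_ifs <;> ring
    rw [sum_congr rfl fun y _ => h4 y, ← mul_sum, sum_sub_distrib]
    simp
  rw [h3]
  have h5 := comb h r m (gf r m (F s)) F' (-1) x s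
  have h6 : (fun y => gf r m (F s) y - -1 * F' y) = fun y => gf r m (F s) y + F' y := by
    funext y
    ring
  rw [h6] at h5
  rw [h5]
  ring

end General

section Main

variable {V : Type} [Fintype V] [DecidableEq V] {q : ℕ} (v0 : V)

/-- resampling at `v0` -/
def sig (f : (V → Fin q) → ℝ) (y : V → Fin q) : ℝ := ∑ c, f (Function.update y v0 c)

/-- rates without the moves at `v0` -/
noncomputable def r0 (r : (V × Fin q) ⊕ (V × V) → ℝ) : (V × Fin q) ⊕ (V × V) → ℝ :=
  fun e => if site e = v0 then 0 else r e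

/-- action of the moves at `v0` -/
noncomputable def KK (r : (V × Fin q) ⊕ (V × V) → ℝ) (f : (V → Fin q) → ℝ) (y : V → Fin q) : ℝ :=
  ∑ e, (if site e = v0 then r e else 0) * f (act e y)

lemma gf_split (r : (V × Fin q) ⊕ (V × V) → ℝ) (f : (V → Fin q) → ℝ) (y : V → Fin q) :
    gf r (act (V := V) (q := q)) f y = gf (r0 v0 r) (act (V := V) (q := q)) f y + KK v0 r f y -
      (∑ e, if site e = v0 then r e else 0) * f y := by
  unfold gf KK r0
  rw [sum_mul, ← sum_add_distrib, ← sum_sub_distrib]
  refine sum_congr rfl fun e _ => ?_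
  split_ifs <;> ring

lemma KK_ge (r : (V × Fin q) ⊕ (V × V) → ℝ) (lam : ℝ) (hr : ∀ e, 0 ≤ r e)
    (h1 : ∀ c, r (Sum.inl (v0, c)) = lam) (f : (V → Fin q) → ℝ) (hf : ∀ y, 0 ≤ f y)
    (y : V → Fin q) : lam * sig v0 f y ≤ KK v0 r f y := by
  unfold KK sig
  rw [Fintype.sum_sum_type]
  have h2 : 0 ≤ ∑ e : V × V, (if site (q := q) (Sum.inr e) = v0 then r (Sum.inr e) else 0) *
      f (act (Sum.inr e) y) := by
    refine sum_nonneg fun e _ => mul_nonneg ?_ (hf _)
    split_ifs
    · exact hr _
    · exact le_rfl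
  have h3 : ∑ e : V × Fin q, (if site (Sum.inl e) = v0 then r (Sum.inl e) else 0) *
      f (act (Sum.inl e) y) = lam * ∑ c, f (Function.update y v0 c) := by
    rw [Fintype.sum_prod_type, sum_eq_single v0]
    · rw [mul_sum]
      refine sum_congr rfl fun c _ => ?_
      have : site (Sum.inl (v0, c) : (V × Fin q) ⊕ (V × V)) = v0 := rfl
      rw [if_pos this, h1]
      rfl
    · intro v _ hv
      refine sum_eq_zero fun c _ => ?_
      have : ¬ site (Sum.inl (v, c) : (V × Fin q) ⊕ (V × V)) = v0 := hv
      rw [if_neg this, zero_mul]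
    · intro h
      exact absurd (mem_univ v0) h
  rw [h3]
  linarith

/-- the moves away from `v0` commute with the resampling -/
lemma act_upd (e : (V × Fin q) ⊕ (V × V)) (he : site e ≠ v0)
    (he' : ∀ v, e ≠ Sum.inr (v, v0)) (y : V → Fin q) (c : Fin q) :
    act e (Function.update y v0 c) = Function.update (act e y) v0 c := by
  rcases e with ⟨v, a⟩ | ⟨v, w⟩
  · have hv : v ≠ v0 := he
    exact Function.update_comm hv.symm _ _ _
  · have hv : v ≠ v0 := he
    have hw : w ≠ v0 := fun h => he' v (by rw [h])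
    show Function.update (Function.update y v0 c) v (Function.update y v0 c w) =
      Function.update (Function.update y v (y w)) v0 c
    rw [Function.update_of_ne hw]
    exact Function.update_comm hv.symm _ _ _

lemma sig_L0 (r : (V × Fin q) ⊕ (V × V) → ℝ) (h2 : ∀ v, r (Sum.inr (v, v0)) = 0)
    (f : (V → Fin q) → ℝ) (y : V → Fin q) :
    sig v0 (gf (r0 v0 r) (act (V := V) (q := q)) f) y =
      gf (r0 v0 r) (act (V := V) (q := q)) (sig v0 f) y := by
  unfold sig gf
  rw [sum_comm]
  refine sum_congr rfl fun e _ => ?_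
  rw [← mul_sum]
  by_cases he : r0 v0 r e = 0
  · rw [he, zero_mul, zero_mul]
  · congr 1
    rw [← sum_sub_distrib]
    refine sum_congr rfl fun c _ => ?_
    have he1 : site e ≠ v0 := by
      intro h
      apply he
      unfold r0
      rw [if_pos h]
    have he2 : ∀ v, e ≠ Sum.inr (v, v0) := by
      intro v h
      apply he
      unfold r0
      rw [if_neg he1, h, h2]
    rw [act_upd v0 e he1 he2]

lemma L_sig (r : (V × Fin q) ⊕ (V × V) → ℝ) (f : (V → Fin q) → ℝ) (y : V → Fin q) :
    gf r (act (V := V) (q := q)) (sig v0 f) y =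
      gf (r0 v0 r) (act (V := V) (q := q)) (sig v0 f) y := by
  unfold gf
  refine sum_congr rfl fun e _ => ?_
  unfold r0
  split_ifs with h
  · have h1 : ∃ a, act e y = Function.update y v0 a := by
      rcases e with ⟨v, a⟩ | ⟨v, w⟩
      · have hv : v = v0 := h
        exact ⟨a, by rw [← hv]; rfl⟩
      · have hv : v = v0 := h
        exact ⟨y w, by rw [← hv]; rfl⟩
    obtain ⟨a, ha⟩ := h1
    have h2 : sig v0 f (act e y) = sig v0 f y := by
      rw [ha]
      unfold sig
      refine sum_congr rfl fun c _ => ?_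
      rw [Function.update_idem]
    rw [h2, sub_self, mul_zero, zero_mul]
  · rfl

lemma gf_comb (r : (V × Fin q) ⊕ (V × V) → ℝ) (F H : (V → Fin q) → ℝ) (a : ℝ) (y : V → Fin q) :
    gf r (act (V := V) (q := q)) (fun z => F z - a * H z) y =
      gf r (act (V := V) (q := q)) F y - a * gf r (act (V := V) (q := q)) H y := by
  unfold gf
  rw [mul_sum, ← sum_sub_distrib]
  refine sum_congr rfl fun e _ => ?_
  ring

lemma gf_smul (r : (V × Fin q) ⊕ (V × V) → ℝ) (F : (V → Fin q) → ℝ) (a : ℝ) (y : V → Fin q) :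
    gf r (act (V := V) (q := q)) (fun z => a * F z) y =
      a * gf r (act (V := V) (q := q)) F y := by
  unfold gf
  rw [mul_sum]
  refine sum_congr rfl fun e _ => ?_
  ring

end Main

theorem nr_ (h : MK) : S_NR := by
  intro V _ _ q r v0 lam hr h1 h2 h3 f t x hf ht
  obtain ⟨ρ1, hρ1⟩ : ∃ ρ1, ρ1 = ∑ e, if site e = v0 then r e else 0 := ⟨_, rfl⟩
  rw [← hρ1] at h3
  have hr0 : ∀ e, 0 ≤ r0 v0 r e := by
    intro e
    unfold r0
    split_ifs
    · exact le_rfl
    · exact hr e
  -- the backward function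
  obtain ⟨fs, hfs⟩ : ∃ fs : ℝ → (V → Fin q) → ℝ, fs = fun s y => Real.exp (-(t - s)) *
      sg (r0 v0 r) (act (V := V) (q := q)) (t - s) f y := ⟨_, rfl⟩
  have hfs0 : ∀ s, s ≤ t → ∀ y, 0 ≤ fs s y := by
    intro s hs y
    rw [hfs]
    exact mul_nonneg (Real.exp_pos _).le
      (nonneg h _ _ hr0 f y _ (by linarith) hf)
  have hdfs : ∀ s y, HasDerivAt (fun s => fs s y)
      (fs s y - gf (r0 v0 r) (act (V := V) (q := q)) (fs s) y) s := by
    intro s y
    have e1 : HasDerivAt (fun s : ℝ => t - s) (-1) s := by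
      simpa using (hasDerivAt_id s).const_sub t
    have e2 : HasDerivAt (fun s : ℝ => Real.exp (-(t - s))) (Real.exp (-(t - s)) * 1) s := by
      have := (e1.neg).exp
      simpa using this
    have e3 := (h.deriv _ _ (r0 v0 r) (act (V := V) (q := q)) f y (t - s)).scomp s e1
    have e4 := e2.mul e3
    have e5 : fs s y - gf (r0 v0 r) (act (V := V) (q := q)) (fs s) y =
        Real.exp (-(t - s)) * 1 * sg (r0 v0 r) (act (V := V) (q := q)) (t - s) f y +
        Real.exp (-(t - s)) * ((-1 : ℝ) • sg (r0 v0 r) (act (V := V) (q := q)) (t - s)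
          (gf (r0 v0 r) (act (V := V) (q := q)) f) y) := by
      rw [hfs]
      dsimp only
      rw [gf_smul, h.comm]
      simp only [smul_eq_mul]
      ring
    rw [e5]
    have e6 : (fun s => fs s y) = fun s => Real.exp (-(t - s)) *
        sg (r0 v0 r) (act (V := V) (q := q)) (t - s) f y := by
      rw [hfs]
    rw [e6]
    exact e4
  -- the interpolation
  obtain ⟨F, hF⟩ : ∃ F : ℝ → (V → Fin q) → ℝ, F = fun s y => fs s y -
      (lam * (1 - Real.exp (-s))) * sig v0 (fs s) y := ⟨_, rfl⟩
  have hdF : ∀ s y, HasDerivAt (fun s => F s y)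
      ((fs s y - gf (r0 v0 r) (act (V := V) (q := q)) (fs s) y) -
        (lam * Real.exp (-s) * sig v0 (fs s) y + (lam * (1 - Real.exp (-s))) *
          sig v0 (fun z => fs s z - gf (r0 v0 r) (act (V := V) (q := q)) (fs s) z) y)) s := by
    intro s y
    have e1 : HasDerivAt (fun s : ℝ => lam * (1 - Real.exp (-s))) (lam * Real.exp (-s)) s := by
      have e2 : HasDerivAt (fun s : ℝ => Real.exp (-s)) (Real.exp (-s) * (-1)) s := by
        have := ((hasDerivAt_id s).neg).exp
        simpa using this
      have e3 := (e2.const_sub 1).const_mul lam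
      simpa using e3
    have e2 : HasDerivAt (fun s => sig v0 (fs s) y)
        (sig v0 (fun z => fs s z - gf (r0 v0 r) (act (V := V) (q := q)) (fs s) z) y) s := by
      unfold sig
      exact HasDerivAt.fun_sum fun c _ => hdfs s (Function.update y v0 c)
    rw [hF]
    exact (hdfs s y).sub (e1.mul e2)
  have hdφ : ∀ s, HasDerivAt (fun s => sg r (act (V := V) (q := q)) s (F s) x)
      (sg r (act (V := V) (q := q)) s (fun y => (1 - ρ1) * fs s y +
        (KK v0 r (fs s) y - lam * sig v0 (fs s) y)) x) s := by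
    intro s
    have e1 := dsg h r (act (V := V) (q := q)) F _ x s (hdF s)
    convert e1 using 2
    funext y
    have e2 : F s = fun y => fs s y - (lam * (1 - Real.exp (-s))) * sig v0 (fs s) y := by
      rw [hF]
    have e3 : sig v0 (fun z => fs s z - gf (r0 v0 r) (act (V := V) (q := q)) (fs s) z) y =
        sig v0 (fs s) y - gf (r0 v0 r) (act (V := V) (q := q)) (sig v0 (fs s)) y := by
      rw [← sig_L0 v0 r h2]
      unfold sig
      rw [sum_sub_distrib]
    rw [e2, gf_comb, gf_split v0 r (fs s) y, L_sig, e3, ← hρ1]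
    ring
  have hmono : MonotoneOn (fun s => sg r (act (V := V) (q := q)) s (F s) x) (Set.Icc 0 t) := by
    refine monotoneOn_of_deriv_nonneg (convex_Icc 0 t)
      (fun s _ => (hdφ s).continuousAt.continuousWithinAt)
      (fun s _ => (hdφ s).differentiableAt.differentiableWithinAt) ?_
    intro s hs
    rw [interior_Icc] at hs
    rw [(hdφ s).deriv]
    refine nonneg h r _ hr _ x s hs.1.le ?_
    intro y
    have k1 := hfs0 s hs.2.le y
    have k2 := KK_ge v0 r lam hr h1 (fs s) (hfs0 s hs.2.le) y
    have k3 : 0 ≤ (1 - ρ1) * fs s y := mul_nonneg (by linarith) k1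
    linarith
  have hfin := hmono (Set.left_mem_Icc.mpr ht) (Set.right_mem_Icc.mpr ht) ht
  dsimp only at hfin
  have hF0 : 0 ≤ sg r (act (V := V) (q := q)) 0 (F 0) x := by
    rw [h.zero, hF]
    dsimp only
    rw [neg_zero, Real.exp_zero, sub_self, mul_zero, zero_mul, sub_zero]
    exact hfs0 0 ht x
  have hfst : fs t = f := by
    rw [hfs]
    funext y
    dsimp only
    rw [sub_self, neg_zero, Real.exp_zero, one_mul, h.zero]
  have hFt : sg r (act (V := V) (q := q)) t (F t) x = sg r (act (V := V) (q := q)) t f x -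
      lam * (1 - Real.exp (-t)) * sg r (act (V := V) (q := q)) t (sig v0 f) x := by
    rw [hF]
    dsimp only
    rw [hfst]
    exact comb h r _ f (sig v0 f) _ x t
  rw [hFt] at hfin
  have hs : sg r (act (V := V) (q := q)) t (fun y => ∑ c, f (Function.update y v0 c)) x =
      sg r (act (V := V) (q := q)) t (sig v0 f) x := rfl
  rw [hs]
  linarith

end Pool.Agent.W880.NW.NR
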