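import Pool.Agent.W788.NW.Stm

/-!
# Project NW, part POS: positivity facts
-/

set_option autoImplicit false

namespace Pool.Agent.W880.NW

open Finset Pool.Agent.W788.NV Pool.Agent.W788.NW

theorem pos_ : S_POS := by
  intro V _ _ q k z Φ v g hk
  have hb : ∀ g : (V → Fin q) → Fin q, hit k z (fun x => Φ (Function.update x v (g x))) ≤
      ∑ c, hit k z (fun x => Φ (Function.update x v c)) := by
    intro g
    unfold hit
    rw [sum_comm]
    refine sum_le_sum fun x _ => ?_
    refine single_le_sum (f := fun c => if Φ (Function.update x v c) = z then k x else 0)
      (fun c _ => ?_) (mem_univ (g x))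
    split_ifs
    · exact hk x
    · exact le_rfl
  refine ⟨?_, hb g, ?_, ?_⟩
  · unfold hit
    refine sum_nonneg fun x _ => ?_
    split_ifs
    · exact hk x
    · exact le_rfl
  · have := hb (fun x => x v)
    simpa only [Function.update_eq_self] using this
  · intro E c hE hkE
    unfold hit
    have h1 : ∑ x, (if Φ (Function.update x v c) = z then k x else 0) ≤
        ∑ x, (fun y => if Φ y = z then E * k y else 0) (Function.update x v c) := by
      refine sum_le_sum fun x _ => ?_
      dsimp only
      split_ifs
      · have := hkE (Function.update x v c) (x v)
        rw [Function.update_idem, Function.update_eq_self] at this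
        exact this
      · exact le_rfl
    refine h1.trans ?_
    have hG : ∀ y, 0 ≤ (fun y => if Φ y = z then E * k y else 0) y := by
      intro y
      dsimp only
      split_ifs
      · exact mul_nonneg hE (hk y)
      · exact le_rfl
    have h3 : q * E * ∑ x, (if Φ x = z then k x else 0) =
        ∑ _c' : Fin q, ∑ y, (fun y => if Φ y = z then E * k y else 0) y := by
      rw [sum_const, card_univ, Fintype.card_fin, nsmul_eq_mul, mul_assoc, mul_sum]
      congr 1
      refine sum_congr rfl fun x _ => ?_
      dsimp only
      split_ifs
      · rfl
      · rw [mul_zero]
    rw [h3]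
    generalize (fun y => if Φ y = z then E * k y else 0) = Gf at hG ⊢
    have h2 : ∑ x : V → Fin q, Gf (Function.update x v c) =
        ∑ c' : Fin q, ∑ x ∈ univ.filter (fun x : V → Fin q => x v = c'),
          Gf (Function.update x v c) :=
      (sum_fiberwise univ (fun x : V → Fin q => x v) (fun x => Gf (Function.update x v c))).symm
    rw [h2]
    refine sum_le_sum fun c' _ => ?_
    rw [← sum_image (f := Gf) (g := fun x : V → Fin q => Function.update x v c)]
    · exact sum_le_univ_sum_of_nonneg hG
    · intro x hx y hy hxy
      have hx' : x v = c' := (mem_filter.mp hx).2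
      have hy' : y v = c' := (mem_filter.mp hy).2
      funext w
      by_cases hw : w = v
      · rw [hw, hx', hy']
      · have := congrFun hxy w
        simpa [Function.update_of_ne hw] using this

end Pool.Agent.W880.NW
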